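import Pool.Agent.H21.JP.Asy

/-! Which multiplicities can occur for many bad groups of a Jordan-Kronecker invariant. -/

namespace Pool.Agent.Results.MP_0fcc55_al.FrequentMultiplicities

open Pool.Agent.H4.JK

open Classical in
/-- Notation as usual: `T.1` is the multiset of the parameters `k` of the Kronecker blocks of size
`2k+1` of an algebraic type `T`, `T.2` has one member (the sizes of the Jordan blocks) for each
eigenvalue, a member of `T.2` is bad if its largest element occurs at least twice, and `Realisable T`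
says that `T` is the Jordan-Kronecker invariant of a finite-dimensional complex Lie algebra.

(1) Let `T` be realisable, `1` not in `T.1`, and `0` at most once in `T.1`, and let `T.1` have at
most one element `k` with `0 < k < 2m`. Then there is a number `N`, equal to `0` if there is no such
`k`, with `k + 1 ≤ 2N` if there is one, such that at most `(m+1)^c`, `c = ∑ (k + 1)` over `T.1`,
different bad groups of multiplicity at most `m` have a multiplicity not divisible by `N`.

(2) For every `K` and `m ≥ 1`: realisable types with Kronecker part `K` and arbitrarily many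
different bad groups of multiplicity `m` exist if and only if `K` contains `1`, or twice `0`, or some
`k ≥ 2` with `k + 1 ≤ 2m`.

(3) Let `M` be a nonempty finite set of numbers between `1` and `b`, and let `K` have at most one
element `k` with `0 < k < 2b`. For every `n` there is a realisable type with Kronecker part `K` in
which each `m ∈ M` is the multiplicity of at least `n` different bad groups, if and only if `K`
contains `1`, or twice `0`, or some `k ≥ 2` such that a number `N` with `k + 1 ≤ 2N` divides all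
`m ∈ M`. -/
theorem result :
    (∀ T : Multiset ℕ × Multiset (Multiset ℕ), Realisable T → 1 ∉ T.1 → T.1.count 0 ≤ 1 →
      ∀ m : ℕ, (T.1.filter fun k => 0 < k ∧ k < 2 * m).card ≤ 1 →
      ∃ N : ℕ, ((T.1.filter fun k => 0 < k ∧ k < 2 * m) = 0 → N = 0) ∧
        (∀ k ∈ T.1, 0 < k → k < 2 * m → k + 1 ≤ 2 * N) ∧
        (T.2.toFinset.filter fun s => Bad s ∧ T.2.count s ≤ m ∧ ¬ N ∣ T.2.count s).card ≤
          (m + 1) ^ (T.1.map (· + 1)).sum) ∧
    (∀ (K : Multiset ℕ) (m : ℕ), 1 ≤ m →
      ((∀ n : ℕ, ∃ T : Multiset ℕ × Multiset (Multiset ℕ), IsType T ∧ Realisable T ∧ T.1 = K ∧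
          n ≤ (T.2.toFinset.filter fun s => Bad s ∧ T.2.count s = m).card) ↔
        (1 ∈ K ∨ 2 ≤ K.count 0 ∨ ∃ k ∈ K, 2 ≤ k ∧ k + 1 ≤ 2 * m))) ∧
    (∀ (K : Multiset ℕ) (M : Finset ℕ) (b : ℕ), M.Nonempty → (∀ m ∈ M, 1 ≤ m ∧ m ≤ b) →
      (K.filter fun k => 0 < k ∧ k < 2 * b).card ≤ 1 →
      ((∀ n : ℕ, ∃ T : Multiset ℕ × Multiset (Multiset ℕ), IsType T ∧ Realisable T ∧ T.1 = K ∧
          ∀ m ∈ M, n ≤ (T.2.toFinset.filter fun s => Bad s ∧ T.2.count s = m).card) ↔
        (1 ∈ K ∨ 2 ≤ K.count 0 ∨
          ∃ k ∈ K, 2 ≤ k ∧ ∃ N, k + 1 ≤ 2 * N ∧ ∀ m ∈ M, N ∣ m))) := by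
  refine ⟨?_, ?_, ?_⟩
  · intro T hR h1 h0 m hK
    rcases Nat.eq_zero_or_pos (T.1.filter fun k => 0 < k ∧ k < 2 * m).card with h2 | h2
    · rw [Multiset.card_eq_zero] at h2
      refine ⟨0, fun _ => rfl, ?_, ?_⟩
      · intro k hk h3 h4
        have h5 : k ∈ T.1.filter fun k => 0 < k ∧ k < 2 * m :=
          Multiset.mem_filter.2 ⟨hk, h3, h4⟩
        rw [h2] at h5
        simp at h5
      · refine le_trans (Finset.card_le_card ?_) (Pool.Agent.H21.JN.nec_m T hR m ?_ h0)
        · intro s hs
          rw [Finset.mem_filter] at hs ⊢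
          exact ⟨hs.1, hs.2.1, hs.2.2.1⟩
        · intro k hk h3
          by_contra h4
          have h5 : k ∈ T.1.filter fun k => 0 < k ∧ k < 2 * m :=
            Multiset.mem_filter.2 ⟨hk, by omega, by omega⟩
          rw [h2] at h5
          simp at h5
    · have h3 : (T.1.filter fun k => 0 < k ∧ k < 2 * m).card = 1 := by omega
      obtain ⟨k0, hk0⟩ := Multiset.card_eq_one.1 h3
      have h4 : k0 ∈ T.1.filter fun k => 0 < k ∧ k < 2 * m := by rw [hk0]; simp
      obtain ⟨h5, h6, h7⟩ := Multiset.mem_filter.1 h4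
      have h8 : 2 ≤ k0 := by
        rcases Nat.lt_or_ge k0 2 with h9 | h9
        · exfalso
          have : k0 = 1 := by omega
          exact h1 (this ▸ h5)
        · exact h9
      have h9 : T.1.count k0 = 1 := by
        have h10 : (T.1.filter fun k => 0 < k ∧ k < 2 * m).count k0 = 1 := by rw [hk0]; simp
        rwa [Multiset.count_filter_of_pos ⟨h6, h7⟩] at h10
      have hun : ∀ k ∈ T.1, 0 < k → k < 2 * m → k = k0 := by
        intro k hk h10 h11
        have h12 : k ∈ T.1.filter fun k => 0 < k ∧ k < 2 * m :=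
          Multiset.mem_filter.2 ⟨hk, h10, h11⟩
        rw [hk0] at h12
        simpa using h12
      obtain ⟨N, hN1, hN2⟩ := Pool.Agent.H21.JP.nec_two T hR m k0 h8 h9 (by
        intro k hk h10
        by_cases h11 : k < 2 * m
        · exact Or.inl (hun k hk (by omega) h11)
        · exact Or.inr (by omega)) h0
      refine ⟨N, fun h => ?_, fun k hk h10 h11 => ?_, hN2⟩
      · rw [h] at h3; simp at h3
      · rw [hun k hk h10 h11]; exact hN1
  · intro K m hm
    rw [← Pool.Agent.H21.JP.thresh K m hm]
    constructor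
    · intro h n
      obtain ⟨T, h1, h2, h3, h4⟩ := h n
      refine ⟨T, h1, h2, h3, ?_⟩
      intro m' hm'
      rw [Finset.mem_singleton] at hm'
      subst hm'
      exact h4
    · intro h n
      obtain ⟨T, h1, h2, h3, h4⟩ := h n
      exact ⟨T, h1, h2, h3, h4 m (Finset.mem_singleton_self m)⟩
  · intro K M b h1 h2 h3
    exact Pool.Agent.H21.JP.asym K M b h1 h2 h3

end Pool.Agent.Results.MP_0fcc55_al.FrequentMultiplicities
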