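import Pool.Agent.H21.JQ.NecS

/-! Jordan-Kronecker invariants with one nonzero Kronecker index. -/

namespace Pool.Agent.Results.MP_0fcc55_al.OneKroneckerIndex

open Pool.Agent.H4.JK

open Classical in
/-- Let `T` be an algebraic type with one Kronecker block of size `2k+1`, `k ≥ 2`, and possibly one
more of size one; `T.2` has one member (the sizes of the Jordan blocks) for each eigenvalue, and a
member is bad if its largest element occurs at least twice. Let `c` be the sum of `k + 1` over the
Kronecker blocks.

(1) If `T` is the Jordan-Kronecker invariant of a finite-dimensional complex Lie algebra, then there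
is a number `N ≥ (k + 1) / 2` which divides the multiplicities of all but at most `2c + 3` different
bad groups.

(2) If every multiplicity of a bad group of `T` is the multiplicity of more than `2c + 3` different
bad groups, then `T` is realisable if and only if some `N ≥ (k + 1) / 2` divides the multiplicities
of all bad groups. -/
theorem result (T : Multiset ℕ × Multiset (Multiset ℕ)) (hT : IsType T) (k : ℕ) (hk : 2 ≤ k)
    (hK : T.1 = {k} ∨ T.1 = {0, k}) :
    (Realisable T → ∃ N : ℕ, k + 1 ≤ 2 * N ∧
      (T.2.toFinset.filter fun s => Bad s ∧ ¬ N ∣ T.2.count s).card ≤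
        2 * (T.1.map (· + 1)).sum + 3) ∧
    ((∀ s ∈ T.2, Bad s → 2 * (T.1.map (· + 1)).sum + 3 <
        (T.2.toFinset.filter fun s' => Bad s' ∧ T.2.count s' = T.2.count s).card) →
      (Realisable T ↔ ∃ N : ℕ, k + 1 ≤ 2 * N ∧ ∀ s ∈ T.2, Bad s → N ∣ T.2.count s)) := by
  have hc : T.1.count k = 1 := by
    rcases hK with h | h
    · rw [h]; simp
    · rw [h]
      have : k ≠ 0 := by omega
      simp [Multiset.insert_eq_cons, Multiset.count_cons, this]
  have hu : ∀ k' ∈ T.1, k' ≠ 0 → k' = k := by
    intro k' hk' h0
    rcases hK with h | h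
    · rw [h] at hk'; simpa using hk'
    · rw [h] at hk'
      simp only [Multiset.insert_eq_cons, Multiset.mem_cons, Multiset.mem_singleton] at hk'
      rcases hk' with h1 | h1
      · exact absurd h1 h0
      · exact h1
  have h0 : T.1.count 0 ≤ 1 := by
    rcases hK with h | h
    · rw [h]
      have : (0 : ℕ) ≠ k := by omega
      simp [this]
    · rw [h]
      have : (0 : ℕ) ≠ k := by omega
      simp [Multiset.insert_eq_cons, Multiset.count_cons, this]
  exact ⟨fun hR => Pool.Agent.H21.JQ.nec_single T hR k hk hc hu h0,
    fun hf => Pool.Agent.H21.JQ.iff_freq T hT k hk hc hu h0 hf⟩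

end Pool.Agent.Results.MP_0fcc55_al.OneKroneckerIndex
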