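import Pool.Agent.H21.JR.FinX
import Pool.Agent.H21.JP.Sharp

/-! Algebraic types with repeated bad groups which are Jordan-Kronecker invariants of Lie
algebras. -/

namespace Pool.Agent.Results.MP_0fcc55_al.RepeatedBadGroups

open Pool.Agent.H4.JK

open Classical in
/-- Let `T` be an algebraic type: `T.1` is the multiset of the parameters `k` of the Kronecker
blocks of size `2k+1`, and `T.2` has one member for each eigenvalue, the multiset of the parameters
`m` of the Jordan blocks of size `2m` with this eigenvalue. A member of `T.2` is bad if its largest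
element occurs at least twice. `Realisable T` says that `T` is the Jordan-Kronecker invariant of a
finite-dimensional complex Lie algebra.

(1) If `T` is realisable then (*) `T.1` contains `1` or twice `0`, or the number of the bad groups
of multiplicity `1` in `T.2` is at most `∑ (k + 1)` over `T.1`. Conversely, let `D` be a multiset of
pairs `(k, N)` with `2 ≤ k`, `k + 1 ≤ 2N` whose first components form a submultiset of `T.1`. If the
multiplicity in `T.2` of each bad group is `1` or a sum of numbers `N` from `D`, then (*) implies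
that `T` is realisable.

(2) If `T.1` is `0` or `{0}`, then `T` is realisable if and only if the number of the bad members
of `T.2` is at most `∑ (k + 1)` over `T.1`.

(3) `T` is realisable if `T.1` contains `1` or twice `0`, and also if there are `D` as in (1) and
numbers `l s ≤ count s` for the bad groups `s` such that `count s - l s` is a sum of numbers `N`
from `D` and the sum of the `l s` over the different bad groups is at most `∑ (k + 1)` over
`T.1`.

(4) The condition (*) implies that `T` is realisable for all types `T` with given `T.1 = K` if and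
only if `K` contains `1` or twice `0` or two blocks `a, b` with `2 ≤ a ≤ 3` and `2 ≤ b ≤ 5`. -/
theorem result :
    (∀ T : Multiset ℕ × Multiset (Multiset ℕ), IsType T →
      (Realisable T → (1 ∈ T.1 ∨ 2 ≤ T.1.count 0 ∨
        (T.2.filter fun s => Bad s ∧ T.2.count s = 1).card ≤ (T.1.map (· + 1)).sum)) ∧
      (∀ D : Multiset (ℕ × ℕ), D.map Prod.fst ≤ T.1 → (∀ d ∈ D, 2 ≤ d.1 ∧ d.1 + 1 ≤ 2 * d.2) →
        (∀ s ∈ T.2, Bad s → T.2.count s = 1 ∨
          T.2.count s ∈ AddSubmonoid.closure {N | ∃ d ∈ D, d.2 = N}) →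
        (1 ∈ T.1 ∨ 2 ≤ T.1.count 0 ∨
          (T.2.filter fun s => Bad s ∧ T.2.count s = 1).card ≤ (T.1.map (· + 1)).sum) →
        Realisable T) ∧
      (T.1 ≤ {0} → (Realisable T ↔ (T.2.filter Bad).card ≤ (T.1.map (· + 1)).sum)) ∧
      ((1 ∈ T.1 ∨ 2 ≤ T.1.count 0 ∨
        ∃ (D : Multiset (ℕ × ℕ)) (l : Multiset ℕ → ℕ), D.map Prod.fst ≤ T.1 ∧
          (∀ d ∈ D, 2 ≤ d.1 ∧ d.1 + 1 ≤ 2 * d.2) ∧
          (∀ s ∈ T.2, Bad s → l s ≤ T.2.count s ∧
            T.2.count s - l s ∈ AddSubmonoid.closure {N | ∃ d ∈ D, d.2 = N}) ∧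
          ∑ s ∈ (T.2.filter Bad).toFinset, l s ≤ (T.1.map (· + 1)).sum) → Realisable T)) ∧
    (∀ K : Multiset ℕ,
      (∀ T : Multiset ℕ × Multiset (Multiset ℕ), IsType T → T.1 = K →
        (1 ∈ K ∨ 2 ≤ K.count 0 ∨
          (T.2.filter fun s => Bad s ∧ T.2.count s = 1).card ≤ (K.map (· + 1)).sum) →
        Realisable T) ↔
      (1 ∈ K ∨ 2 ≤ K.count 0 ∨
        ∃ a b : ℕ, 2 ≤ a ∧ a ≤ 3 ∧ 2 ≤ b ∧ b ≤ 5 ∧ ({a, b} : Multiset ℕ) ≤ K)) := by
  have hD : ∀ D : Multiset (ℕ × ℕ), (∀ d ∈ D, 2 ≤ d.1 ∧ d.1 + 1 ≤ 2 * d.2) →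
      ∀ d ∈ D, 2 ≤ d.1 ∧ 2 ≤ d.2 ∧ d.1 + 1 ≤ 2 * d.2 := by
    intro D h d hd
    obtain ⟨h1, h2⟩ := h d hd
    exact ⟨h1, by omega, h2⟩
  refine ⟨fun T hT => ⟨fun hR => ?_,
    fun D h1 h2 h3 => (Pool.Agent.H21.JR.iff_D T hT D h1 (hD D h2) h3).2,
    fun h0 => ?_, fun h => ?_⟩, fun K => ?_⟩
  · rcases necessary T hR with h1 | h1 | h1
    · exact Or.inl h1
    · exact Or.inr (Or.inl h1)
    · exact Or.inr (Or.inr h1.1)
  · rw [Pool.Agent.H21.JR.iff_zero T hT h0]
    constructor
    · rintro (h | h | h)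
      · have h2 := Multiset.mem_of_le h0 h
        simp at h2
      · have h2 := Multiset.count_le_of_le 0 h0
        rw [Multiset.count_singleton_self] at h2
        omega
      · exact h
    · exact fun h => Or.inr (Or.inr h)
  · rcases h with h | h | ⟨D, l, h1, h2, h3, h4⟩
    · exact realisable_main T hT (Or.inl h)
    · exact realisable_main T hT (Or.inr h)
    · exact Pool.Agent.H21.JR.engine T hT D h1 (hD D h2) l h3 h4
  · constructor
    · intro h
      exact (Pool.Agent.H21.JP.sharp K).1 fun T hT hK hc => h T hT hK (Or.inr (Or.inr hc))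
    · intro h T hT hK
      rintro (h1 | h1 | h1)
      · exact realisable_main T hT (Or.inl (by rw [hK]; exact h1))
      · exact realisable_main T hT (Or.inr (by rw [hK]; exact h1))
      · exact (Pool.Agent.H21.JP.sharp K).2 h T hT hK h1

end Pool.Agent.Results.MP_0fcc55_al.RepeatedBadGroups
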